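import Mathlib
import Pool.Agent.Q136.NCC.Stm
import Pool.Agent.Q68.RNC.NAR

set_option autoImplicit false

/-!
# Job NCC-CN1 (project NCC of helper136): the number of normal rational curves through a frame
-/

open Finset Polynomial

namespace Pool.Agent.Q182.NCC

open Pool.Agent.Q136.RNC Pool.Agent.Q136.NCC

section basics

variable {F : Type} [Field F] {k : ℕ}

theorem pr_refl (x : Fin k → F) : Pr x x := ⟨1, one_ne_zero, by simp⟩

theorem pr_symm {x y : Fin k → F} (h : Pr x y) : Pr y x := by
  obtain ⟨c, hc, rfl⟩ := h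
  exact ⟨c⁻¹, inv_ne_zero hc, by rw [smul_smul, inv_mul_cancel₀ hc, one_smul]⟩

theorem pr_trans {x y z : Fin k → F} (h : Pr x y) (h' : Pr y z) : Pr x z := by
  obtain ⟨c, hc, rfl⟩ := h
  obtain ⟨d, hd, rfl⟩ := h'
  exact ⟨c * d, mul_ne_zero hc hd, by rw [smul_smul]⟩

theorem pr_map (φ : (Fin k → F) ≃ₗ[F] (Fin k → F)) {x y : Fin k → F} (h : Pr x y) :
    Pr (φ x) (φ y) := by
  obtain ⟨c, hc, rfl⟩ := h
  exact ⟨c, hc, by rw [map_smul]⟩

theorem mem_cone {φ : (Fin k → F) ≃ₗ[F] (Fin k → F)} {x : Fin k → F} :
    x ∈ cone φ ↔ ∃ t : Option F, Pr x (φ (nrc k t)) := Iff.rfl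

/-- different points of the curve are not proportional -/
theorem nrc_inj (hk : 2 ≤ k) {s t : Option F} (h : Pr (nrc k s) (nrc k t)) : s = t := by
  obtain ⟨c, hc, h⟩ := h
  have h0 := congrFun h ⟨0, by omega⟩
  have h1 := congrFun h ⟨1, by omega⟩
  cases s with
  | none =>
    cases t with
    | none => rfl
    | some t =>
      exfalso
      simp only [nrc, Pi.smul_apply, smul_eq_mul, pow_zero, mul_one] at h0
      rw [if_neg (by omega)] at h0
      exact hc h0.symm
  | some s =>
    cases t with
    | none =>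
      exfalso
      simp only [nrc, Pi.smul_apply, smul_eq_mul, pow_zero] at h0
      rw [if_neg (by omega), mul_zero] at h0
      exact one_ne_zero h0
    | some t =>
      simp only [nrc, Pi.smul_apply, smul_eq_mul, pow_zero, mul_one, pow_one] at h0 h1
      rw [← h0, one_mul] at h1
      rw [h1]

/-- different vectors of an arc are not proportional -/
theorem arc_inj {ι : Type} [Fintype ι] {v : ι → Fin k → F} (hv : Arc v) (hk : 2 ≤ k)
    (hι : k ≤ Fintype.card ι) {i j : ι} (h : Pr (v i) (v j)) : i = j := by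
  classical
  by_contra hij
  have hc : ({i, j} : Finset ι).card ≤ k := by
    rw [Finset.card_pair hij]; exact hk
  obtain ⟨S, hS1, hS2⟩ := Finset.exists_superset_card_eq hc hι
  have hLI := hv S hS2
  have hi : i ∈ S := hS1 (by simp)
  have hj : j ∈ S := hS1 (by simp)
  obtain ⟨c, hc, h⟩ := h
  have hinj : Function.Injective (![⟨i, hi⟩, ⟨j, hj⟩] : Fin 2 → S) := by
    intro a b hab
    fin_cases a <;> fin_cases b <;> simp_all [Subtype.ext_iff]
  have h2 := hLI.comp _ hinj
  rw [linearIndependent_fin2] at h2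
  exact h2.2 c (by simpa using h.symm)

/-- a relation between the vectors of a frame with a zero coefficient is trivial -/
theorem frame_rel {x : Fin (k + 1) → Fin k → F} (hx : Arc x) (β : Fin (k + 1) → F)
    (hβ : ∑ i, β i • x i = 0) (i₀ : Fin (k + 1)) (h0 : β i₀ = 0) : ∀ i, β i = 0 := by
  classical
  have hS : (univ.erase i₀).card = k := by
    rw [Finset.card_erase_of_mem (mem_univ _), Finset.card_univ, Fintype.card_fin]; rfl
  have hLI := hx (univ.erase i₀) hS
  rw [Fintype.linearIndependent_iff] at hLI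
  have hsum : ∑ i : (univ.erase i₀ : Finset (Fin (k + 1))), β i • x i = 0 := by
    rw [Finset.sum_coe_sort (univ.erase i₀) (fun i => β i • x i)]
    rw [← hβ, ← Finset.add_sum_erase univ _ (mem_univ i₀), h0, zero_smul, zero_add]
  have := hLI (fun i => β i) hsum
  intro i
  by_cases hi : i = i₀
  · rw [hi, h0]
  · exact this ⟨i, Finset.mem_erase.mpr ⟨hi, mem_univ _⟩⟩

/-- a linear map which maps all the vectors of a frame to multiples is a scalar -/
theorem frame_rigid {x : Fin (k + 1) → Fin k → F} (hx : Arc x)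
    (ψ : (Fin k → F) ≃ₗ[F] (Fin k → F)) (h : ∀ i, Pr (ψ (x i)) (x i)) :
    ∃ c : F, c ≠ 0 ∧ ∀ y, ψ y = c • y := by
  classical
  choose c hc h using h
  -- a nontrivial relation
  have hdep : ¬ LinearIndependent F x := by
    intro hLI
    have := hLI.fintype_card_le_finrank
    simp at this
  rw [Fintype.not_linearIndependent_iff] at hdep
  obtain ⟨β, hβ, j, hj⟩ := hdep
  have hne : ∀ i, β i ≠ 0 := fun i hi => hj (frame_rel hx β hβ i hi j)
  have hrel2 : ∑ i, (β i * (c i - c 0)) • x i = 0 := by
    have h1 : ∑ i, (β i * c i) • x i = 0 := by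
      have := congrArg ψ hβ
      rw [map_sum, map_zero] at this
      rw [← this]
      refine Finset.sum_congr rfl fun i _ => ?_
      rw [map_smul, h i, smul_smul]
    have h2 : ∑ i, (β i * c 0) • x i = 0 := by
      have := congrArg (fun y => c 0 • y) hβ
      simp only [smul_zero, Finset.smul_sum, smul_smul] at this
      rw [← this]
      exact Finset.sum_congr rfl fun i _ => by rw [mul_comm]
    calc ∑ i, (β i * (c i - c 0)) • x i
        = ∑ i, (β i * c i) • x i - ∑ i, (β i * c 0) • x i := by
          rw [← Finset.sum_sub_distrib]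
          exact Finset.sum_congr rfl fun i _ => by rw [← sub_smul]; ring_nf
      _ = 0 := by rw [h1, h2, sub_zero]
  have hc0 : ∀ i, c i = c 0 := by
    intro i
    have := frame_rel hx _ hrel2 0 (by ring) i
    rcases mul_eq_zero.mp this with h3 | h3
    · exact (hne i h3).elim
    · exact sub_eq_zero.mp h3
  refine ⟨c 0, hc 0, ?_⟩
  -- the vectors span
  have hS : (univ.erase (0 : Fin (k + 1))).card = k := by
    rw [Finset.card_erase_of_mem (mem_univ _), Finset.card_univ, Fintype.card_fin]; rfl
  have hLI := hx (univ.erase (0 : Fin (k + 1))) hS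
  have hspan := hLI.span_eq_top_of_card_eq_finrank' (by
    rw [Fintype.card_coe, hS]; simp)
  have hext : (ψ : (Fin k → F) →ₗ[F] (Fin k → F)) = c 0 • LinearMap.id := by
    apply LinearMap.ext_on_range hspan
    intro i
    simp only [LinearEquiv.coe_coe, LinearMap.smul_apply, LinearMap.id_apply]
    rw [h i, hc0 i]
  intro y
  have := LinearMap.congr_fun hext y
  simpa using this

/-- equality of cones -/
theorem cone_eq {φ φ' : (Fin k → F) ≃ₗ[F] (Fin k → F)} (τ : Option F → Option F)
    (hτ : Function.Surjective τ) (h : ∀ s, Pr (φ (nrc k s)) (φ' (nrc k (τ s)))) :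
    cone φ = cone φ' := by
  ext x
  rw [mem_cone, mem_cone]
  constructor
  · rintro ⟨s, hs⟩
    exact ⟨τ s, pr_trans hs (h s)⟩
  · rintro ⟨s, hs⟩
    obtain ⟨s', rfl⟩ := hτ s
    exact ⟨s', pr_trans hs (pr_symm (h s'))⟩

end basics

section tuples

variable {F : Type} [Field F]

/-- the parameters `∞, 0, 1, g 0, g 1, …` -/
def tg {m : ℕ} (g : Fin m → F) : Fin (m + 3) → Option F :=
  Fin.cons none (Fin.cons (some 0) (Fin.cons (some 1) (fun i => some (g i))))

theorem two_eq (m : ℕ) : (2 : Fin (m + 3)) = Fin.succ (Fin.succ (0 : Fin (m + 1))) := by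
  ext; simp

theorem tg_zero {m : ℕ} (g : Fin m → F) : tg g 0 = none := rfl

theorem tg_one {m : ℕ} (g : Fin m → F) : tg g 1 = some 0 := rfl

theorem tg_two {m : ℕ} (g : Fin m → F) : tg g 2 = some 1 := by
  rw [two_eq]; rfl

theorem tg_succ {m : ℕ} (g : Fin m → F) (i : Fin m) : tg g i.succ.succ.succ = some (g i) := rfl

theorem tg_injective {m : ℕ} (g : Fin m ↪ {x : F // x ≠ 0 ∧ x ≠ 1}) :
    Function.Injective (tg (fun i => (g i : F))) := by
  unfold tg
  rw [Fin.cons_injective_iff, Fin.cons_injective_iff, Fin.cons_injective_iff]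
  refine ⟨?_, ?_, ?_, ?_⟩
  · rintro ⟨i, hi⟩
    revert hi
    refine Fin.cases ?_ (fun i => ?_) i
    · simp
    · refine Fin.cases ?_ (fun i => ?_) i
      · simp
      · simp
  · rintro ⟨i, hi⟩
    revert hi
    refine Fin.cases ?_ (fun i => ?_) i
    · simp
    · simp only [Fin.cons_succ, Option.some.injEq]
      exact (g i).2.1
  · rintro ⟨i, hi⟩
    simp only [Option.some.injEq] at hi
    exact (g i).2.2 hi
  · intro i j hij
    simp only [Option.some.injEq] at hij
    exact g.injective (Subtype.ext hij)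

theorem tg_surj {m : ℕ} (t : Fin (m + 3) → Option F) (ht : Function.Injective t)
    (h0 : t 0 = none) (h1 : t 1 = some 0) (h2 : t 2 = some 1) :
    ∃ g : Fin m ↪ {x : F // x ≠ 0 ∧ x ≠ 1}, t = tg (fun i => (g i : F)) := by
  have hne : ∀ i : Fin m, ∃ x : F, t i.succ.succ.succ = some x ∧ x ≠ 0 ∧ x ≠ 1 := by
    intro i
    cases hx : t i.succ.succ.succ with
    | none =>
      exfalso
      have := ht (hx.trans h0.symm)
      exact Fin.succ_ne_zero _ this
    | some x =>
      refine ⟨x, rfl, ?_, ?_⟩
      · rintro rfl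
        have := ht (hx.trans h1.symm)
        rw [← Fin.succ_zero_eq_one] at this
        exact Fin.succ_ne_zero _ (Fin.succ_injective _ this)
      · rintro rfl
        have := ht (hx.trans h2.symm)
        have h3 : (2 : Fin (m + 3)) = (Fin.succ (Fin.succ (0 : Fin (m + 1)))) := by
          ext; simp
        rw [h3] at this
        exact Fin.succ_ne_zero _ (Fin.succ_injective _ (Fin.succ_injective _ this))
  choose g hg hg0 hg1 using hne
  refine ⟨⟨fun i => ⟨g i, hg0 i, hg1 i⟩, ?_⟩, ?_⟩
  · intro i j hij
    have : g i = g j := congrArg Subtype.val hij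
    have h4 : t i.succ.succ.succ = t j.succ.succ.succ := by rw [hg i, hg j, this]
    exact Fin.succ_injective _ (Fin.succ_injective _ (Fin.succ_injective _ (ht h4)))
  · funext i
    unfold tg
    refine Fin.cases ?_ (fun i => ?_) i
    · simpa using h0
    · refine Fin.cases ?_ (fun i => ?_) i
      · simpa using h1
      · refine Fin.cases ?_ (fun i => ?_) i
        · rw [Fin.cons_succ, Fin.cons_succ, Fin.cons_zero]
          rw [← h2]
          congr 1
        · rw [Fin.cons_succ, Fin.cons_succ, Fin.cons_succ]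
          exact hg i

theorem card_sub [Fintype F] [DecidableEq F] :
    Fintype.card {x : F // x ≠ 0 ∧ x ≠ 1} = Fintype.card F - 2 := by
  have : Fintype.card {x : F // x ≠ 0 ∧ x ≠ 1} = Finset.card ((univ : Finset F) \ {0, 1}) := by
    rw [Fintype.card_subtype]
    congr 1
    ext x
    simp
  rw [this, Finset.card_sdiff_of_subset (Finset.subset_univ _), Finset.card_univ,
    Finset.card_pair zero_ne_one]

end tuples

theorem t_CN1 (hMO1 : S_MO1) (hMO2 : S_MO2) (hMO4 : S_MO4) (hFRA : S_FRA) : S_CN1 := by
  classical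
  intro F _ _ k v hk hkq hv
  obtain ⟨m, rfl⟩ : ∃ m, k = m + 2 := ⟨k - 2, by omega⟩
  obtain ⟨mo1, mo2, mo3, mo4⟩ := hMO1 F
  have hcardO : Fintype.card (Option F) = Fintype.card F + 1 := Fintype.card_option
  -- the automorphisms
  have hex : ∀ g : Fin m ↪ {x : F // x ≠ 0 ∧ x ≠ 1},
      ∃ φ : (Fin (m + 2) → F) ≃ₗ[F] (Fin (m + 2) → F),
        ∀ i, Pr (v i) (φ (nrc (m + 2) (tg (fun i => (g i : F)) i))) := by
    intro g
    exact hFRA F (m + 2) _ v (Pool.Agent.Q68.RNC.t_NAR F _ (m + 2) _ (tg_injective g)) hv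
  choose φ hφ using hex
  have hrange : thru v = Set.range (fun g => cone (φ g)) := by
    ext A
    constructor
    · rintro ⟨⟨χ, rfl⟩, hA⟩
      have hA' : ∀ i, ∃ t : Option F, Pr (v i) (χ (nrc (m + 2) t)) := fun i => mem_cone.mp (hA i)
      choose s hs using hA'
      have hsinj : Function.Injective s := by
        intro i j hij
        apply arc_inj hv (by omega) (by simp)
        refine pr_trans (hs i) ?_
        rw [hij]
        exact pr_symm (hs j)
      have hn01 : (0 : Fin (m + 2 + 1)) ≠ 1 := by simp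
      have hn02 : (0 : Fin (m + 2 + 1)) ≠ 2 := by
        rw [two_eq]
        exact (Fin.succ_ne_zero _).symm
      have hn12 : (1 : Fin (m + 2 + 1)) ≠ 2 := by
        rw [two_eq, ← Fin.succ_zero_eq_one]
        intro h
        exact Fin.succ_ne_zero _ (Fin.succ_injective _ h).symm
      obtain ⟨a, b, c, d, hdet, e0, e1, e2⟩ := mo2 (s 0) (s 1) (s 2)
        (fun h => hn01 (hsinj h)) (fun h => hn02 (hsinj h)) (fun h => hn12 (hsinj h))
      obtain ⟨Φ, hΦ⟩ := hMO2 F (m + 2) (by omega) (by omega) a b c d hdet
      obtain ⟨g, hg⟩ := tg_surj (fun i => mo a b c d (s i))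
        ((mo1 a b c d hdet).comp hsinj) e0 e1 e2
      refine ⟨g, ?_⟩
      -- `χ' = χ ∘ Φ⁻¹`
      have hmosurj : Function.Surjective (mo a b c d) :=
        Finite.injective_iff_surjective.mp (mo1 a b c d hdet)
      have h1 : cone χ = cone (Φ.symm.trans χ) := by
        apply cone_eq (mo a b c d) hmosurj
        intro t
        have := pr_map (Φ.symm.trans χ) (hΦ t)
        simpa using this
      have h2 : ∀ i, Pr (v i) ((Φ.symm.trans χ) (nrc (m + 2) (tg (fun i => (g i : F)) i))) := by
        intro i
        have h3 := pr_map (Φ.symm.trans χ) (hΦ (s i))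
        have h4 : mo a b c d (s i) = tg (fun i => (g i : F)) i := congrFun hg i
        rw [h4] at h3
        refine pr_trans (hs i) ?_
        simpa using h3
      -- rigidity
      obtain ⟨c', hc', hψ⟩ := frame_rigid
        (Pool.Agent.Q68.RNC.t_NAR F _ (m + 2) _ (tg_injective g))
        ((φ g).trans (Φ.symm.trans χ).symm) (by
          intro i
          have h5 := pr_map (Φ.symm.trans χ).symm (pr_trans (pr_symm (hφ g i)) (h2 i))
          simpa using h5)
      show cone (φ g) = cone χ
      rw [h1]
      apply cone_eq id Function.surjective_id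
      intro t
      refine ⟨c', hc', ?_⟩
      have h6 := hψ (nrc (m + 2) t)
      have h7 := congrArg (Φ.symm.trans χ) h6
      simpa using h7
    · rintro ⟨g, rfl⟩
      exact ⟨⟨φ g, rfl⟩, fun i => mem_cone.mpr ⟨_, hφ g i⟩⟩
  have hinj : Function.Injective (fun g => cone (φ g)) := by
    intro g g' hgg
    have hgg' : cone (φ g) = cone (φ g') := hgg
    have hτ : ∀ s : Option F, ∃ s' : Option F,
        Pr (φ g (nrc (m + 2) s)) (φ g' (nrc (m + 2) s')) := by
      intro s
      have : φ g (nrc (m + 2) s) ∈ cone (φ g') := by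
        rw [← hgg']
        exact mem_cone.mpr ⟨s, pr_refl _⟩
      exact mem_cone.mp this
    choose τ hτ using hτ
    have hΦ : ∀ s, Pr (((φ g).trans (φ g').symm) (nrc (m + 2) s)) (nrc (m + 2) (τ s)) := by
      intro s
      have := pr_map (φ g').symm (hτ s)
      simpa using this
    have hτinj : Function.Injective τ := by
      intro s s' hss
      apply nrc_inj (F := F) (k := m + 2) (by omega)
      have h1 : Pr (((φ g).trans (φ g').symm) (nrc (m + 2) s))
          (((φ g).trans (φ g').symm) (nrc (m + 2) s')) := by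
        refine pr_trans (hΦ s) ?_
        rw [hss]
        exact pr_symm (hΦ s')
      have h2 := pr_map ((φ g).trans (φ g').symm).symm h1
      rwa [LinearEquiv.symm_apply_apply, LinearEquiv.symm_apply_apply] at h2
    obtain ⟨a, b, c, d, hdet, hmo⟩ := hMO4 F (Option F) (m + 2) id τ
      ((φ g).trans (φ g').symm) (by omega) (by omega) (by rw [hcardO]; omega)
      Function.injective_id hτinj hΦ
    have hfix : ∀ i, mo a b c d (tg (fun i => (g i : F)) i) = tg (fun i => (g' i : F)) i := by
      intro i
      apply nrc_inj (F := F) (k := m + 2) (by omega)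
      refine pr_trans (pr_symm (hmo _)) ?_
      have h3 := pr_map (φ g').symm (pr_trans (pr_symm (hφ g i)) (hφ g' i))
      simpa using h3
    have hid := mo3 a b c d hdet
      (by have h5 := hfix 0; rwa [tg_zero, tg_zero] at h5)
      (by have h5 := hfix 1; rwa [tg_one, tg_one] at h5)
      (by have h5 := hfix 2; rwa [tg_two, tg_two] at h5)
    apply Function.Embedding.ext
    intro i
    have h6 := hfix i.succ.succ.succ
    rw [hid, tg_succ, tg_succ, Option.some.injEq] at h6
    exact Subtype.ext h6
  rw [hrange, ← Set.image_univ, Set.ncard_image_of_injective _ hinj, Set.ncard_univ,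
    Nat.card_eq_fintype_card, Fintype.card_embedding_eq, card_sub, Fintype.card_fin]
  rfl

end Pool.Agent.Q182.NCC
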